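import Mathlib

set_option autoImplicit false

namespace Pool.Agent.R7.SrCopies

open List

/-- `EndBuilt xs ys`: the list `ys` is obtained from `xs = [x₁, …, x_r]` by putting down `x_r` and
then placing `x_{r-1}, …, x₁`, one after the other, at the left or at the right end. -/
inductive EndBuilt {β : Type*} : List β → List β → Prop
  | nil : EndBuilt [] []
  | left (a : β) {xs ys : List β} : EndBuilt xs ys → EndBuilt (a :: xs) (a :: ys)
  | right (a : β) {xs ys : List β} : EndBuilt xs ys → EndBuilt (a :: xs) (ys ++ [a])

section
variable {α : Type*} [DecidableEq α]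

/-- words with the same letters as `l` -/
def P (l : List α) : Finset (List α) := l.permutations.toFinset

lemma mem_P {l w : List α} : w ∈ P l ↔ w ~ l := by
  simp [P, List.mem_permutations]

lemma card_rot (l : List α) (j : ℕ) (Q : List α → Prop) [DecidablePred Q] :
    ((P l).filter (fun w => Q (w.rotate j))).card = ((P l).filter Q).card := by
  classical
  have hinj : Set.InjOn (fun w : List α => w.rotate j) (P l : Set (List α)) :=
    fun a _ b _ h => List.rotate_injective j h
  have himg : (P l).image (fun w => w.rotate j) = P l := by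
    apply Finset.eq_of_subset_of_card_le
    · intro w hw
      rw [Finset.mem_image] at hw
      obtain ⟨v, hv, rfl⟩ := hw
      rw [mem_P] at hv ⊢
      exact (List.rotate_perm v j).trans hv
    · rw [Finset.card_image_of_injOn hinj]
  have h2 : (P l).filter Q = ((P l).filter (fun w => Q (w.rotate j))).image (fun w => w.rotate j) := by
    ext w
    simp only [Finset.mem_filter, Finset.mem_image]
    constructor
    · rintro ⟨hw, hq⟩
      rw [← himg, Finset.mem_image] at hw
      obtain ⟨v, hv, rfl⟩ := hw
      exact ⟨v, ⟨hv, hq⟩, rfl⟩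
    · rintro ⟨v, ⟨hv, hq⟩, rfl⟩
      refine ⟨?_, hq⟩
      rw [← himg]
      exact Finset.mem_image_of_mem _ hv
  rw [h2, Finset.card_image_of_injOn]
  exact fun a _ b _ h => List.rotate_injective j h

lemma pairs_ge (S : Finset ℕ) :
    S.card ≤ ((S ×ˢ S).filter (fun p => p.1 < p.2)).card + 1 := by
  classical
  rcases S.eq_empty_or_nonempty with h | h
  · simp [h]
  · have hm := S.min'_mem h
    have : (S.erase (S.min' h)).card ≤ ((S ×ˢ S).filter (fun p => p.1 < p.2)).card := by
      apply Finset.card_le_card_of_injOn (fun j => (S.min' h, j))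
      · intro j hj
        have hj' := Finset.mem_erase.mp (Finset.mem_coe.mp hj)
        simp only [Finset.coe_filter, Finset.mem_product, Set.mem_ofPred_eq]
        exact ⟨⟨hm, hj'.2⟩, lt_of_le_of_ne (S.min'_le j hj'.2) (Ne.symm hj'.1)⟩
      · intro a _ b _ hab
        simpa using hab
    rw [Finset.card_erase_of_mem hm] at this
    omega

lemma step (l : List α) (E : List α → Prop) [DecidablePred E] (m : ℕ) (_hm : 1 ≤ m)
    (hlen : 2 * m ≤ l.length)
    (hE : (P l).card ≤ m * ((P l).filter E).card) :
    ∃ u l' : List α, u ≠ [] ∧ u ++ l' ~ l ∧ u.length < 2 * m ∧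
      (P l').card ≤ 4 * m ^ 2 * ((P l').filter (fun v => E (u ++ v) ∧ E (v ++ u))).card := by
  classical
  set q := 2 * m with hq
  have hPne : (P l).Nonempty := ⟨l, mem_P.mpr (List.Perm.refl l)⟩
  -- double counting
  let S : List α → Finset ℕ := fun w => (Finset.range q).filter (fun j => E (w.rotate j))
  have h1 : ∑ w ∈ P l, (S w).card = q * ((P l).filter E).card := by
    have : ∑ w ∈ P l, (S w).card
        = ∑ j ∈ Finset.range q, ((P l).filter (fun w => E (w.rotate j))).card := by
      simp only [S, Finset.card_filter]
      exact Finset.sum_comm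
    rw [this, Finset.sum_congr rfl (fun j _ => card_rot l j E)]
    simp
  let I : Finset (ℕ × ℕ) := (Finset.range q ×ˢ Finset.range q).filter (fun p => p.1 < p.2)
  have h2 : ∀ w, (S w).card ≤ (I.filter (fun p => E (w.rotate p.1) ∧ E (w.rotate p.2))).card + 1 := by
    intro w
    refine (pairs_ge (S w)).trans (Nat.add_le_add_right (Finset.card_le_card ?_) 1)
    intro p hp
    simp only [S, I, Finset.mem_filter, Finset.mem_product] at hp ⊢
    exact ⟨⟨⟨hp.1.1.1, hp.1.2.1⟩, hp.2⟩, hp.1.1.2, hp.1.2.2⟩
  have h3 : ∑ w ∈ P l, (I.filter (fun p => E (w.rotate p.1) ∧ E (w.rotate p.2))).card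
      = ∑ p ∈ I, ((P l).filter (fun w => E (w.rotate p.1) ∧ E (w.rotate p.2))).card := by
    simp only [Finset.card_filter]
    exact Finset.sum_comm
  have h4 : (P l).card ≤ ∑ p ∈ I, ((P l).filter (fun w => E (w.rotate p.1) ∧ E (w.rotate p.2))).card := by
    rw [← h3]
    have h5 : ∑ w ∈ P l, (S w).card ≤
        ∑ w ∈ P l, ((I.filter (fun p => E (w.rotate p.1) ∧ E (w.rotate p.2))).card + 1) :=
      Finset.sum_le_sum (fun w _ => h2 w)
    rw [Finset.sum_add_distrib, h1] at h5
    simp only [Finset.sum_const, smul_eq_mul, mul_one] at h5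
    have : 2 * (P l).card ≤ q * ((P l).filter E).card := by
      rw [hq, mul_assoc]
      exact Nat.mul_le_mul_left 2 hE
    omega
  have hIcard : I.card ≤ q * q := by
    refine (Finset.card_filter_le _ _).trans ?_
    simp
  -- choose a pair
  obtain ⟨p, hpI, hp⟩ : ∃ p ∈ I, (P l).card ≤
      q * q * ((P l).filter (fun w => E (w.rotate p.1) ∧ E (w.rotate p.2))).card := by
    by_contra hcon
    push Not at hcon
    have hIne : I.Nonempty := by
      rw [Finset.nonempty_iff_ne_empty]
      intro h
      rw [h] at h4
      simp at h4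
      exact hPne.ne_empty h4
    have h6 : ∑ p ∈ I, q * q * ((P l).filter (fun w => E (w.rotate p.1) ∧ E (w.rotate p.2))).card
        < ∑ p ∈ I, (P l).card := Finset.sum_lt_sum_of_nonempty hIne hcon
    rw [← Finset.mul_sum, Finset.sum_const, smul_eq_mul] at h6
    have h7 : q * q * (P l).card ≤ I.card * (P l).card :=
      (Nat.mul_le_mul_left _ h4).trans h6.le
    have h8 : I.card * (P l).card ≤ q * q * (P l).card := Nat.mul_le_mul_right _ hIcard
    have h9 := Nat.mul_le_mul_left (q * q) h4
    omega
  simp only [I, Finset.mem_filter, Finset.mem_product, Finset.mem_range] at hpI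
  set a := p.2 - p.1 with ha
  have ha1 : 1 ≤ a := by omega
  have haq : a < q := by omega
  have h10 : ((P l).filter (fun w => E (w.rotate p.1) ∧ E (w.rotate p.2))).card
      = ((P l).filter (fun w => E w ∧ E (w.rotate a))).card := by
    rw [← card_rot l p.1 (fun w => E w ∧ E (w.rotate a))]
    congr 1
    apply Finset.filter_congr
    intro w _
    rw [List.rotate_rotate, ha, Nat.add_sub_cancel' hpI.2.le]
  rw [h10] at hp
  -- fibres over the first `a` letters
  let F := (P l).filter (fun w => E w ∧ E (w.rotate a))
  let U := (P l).image (fun w => w.take a)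
  have hT : (P l).card = ∑ u ∈ U, ((P l).filter (fun w => w.take a = u)).card :=
    Finset.card_eq_sum_card_fiberwise (fun w hw => Finset.mem_image_of_mem _ hw)
  have hF : F.card = ∑ u ∈ U, (F.filter (fun w => w.take a = u)).card :=
    Finset.card_eq_sum_card_fiberwise
      (fun w hw => Finset.mem_image_of_mem _ (Finset.mem_filter.mp hw).1)
  obtain ⟨u, huU, hu⟩ : ∃ u ∈ U, ((P l).filter (fun w => w.take a = u)).card ≤
      q * q * (F.filter (fun w => w.take a = u)).card := by
    apply Finset.exists_le_of_sum_le (hPne.image _)
    rw [← hT, ← Finset.mul_sum, ← hF]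
    exact hp
  rw [Finset.mem_image] at huU
  obtain ⟨w0, hw0, hw0u⟩ := huU
  rw [mem_P] at hw0
  have hw0len : w0.length = l.length := hw0.length_eq
  have hulen : u.length = a := by
    rw [← hw0u, List.length_take]
    omega
  refine ⟨u, w0.drop a, ?_, ?_, ?_, ?_⟩
  · intro h
    rw [h] at hulen
    simp at hulen
    omega
  · rw [← hw0u, List.take_append_drop]
    exact hw0
  · omega
  · have e1 : (P (w0.drop a)).card ≤ ((P l).filter (fun w => w.take a = u)).card := by
      apply Finset.card_le_card_of_injOn (fun v => u ++ v)
      · intro v hv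
        rw [Finset.mem_coe, mem_P] at hv
        rw [Finset.mem_coe, Finset.mem_filter, mem_P]
        constructor
        · have : u ++ v ~ u ++ w0.drop a := hv.append_left u
          refine this.trans ?_
          rw [← hw0u, List.take_append_drop]
          exact hw0
        · rw [← hulen]
          simp
      · intro x _ y _ hxy
        simpa using hxy
    have e2 : (F.filter (fun w => w.take a = u)).card ≤
        ((P (w0.drop a)).filter (fun v => E (u ++ v) ∧ E (v ++ u))).card := by
      apply Finset.card_le_card_of_injOn (fun w => w.drop a)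
      · intro w hw
        rw [Finset.mem_coe, Finset.mem_filter, Finset.mem_filter, mem_P] at hw
        obtain ⟨⟨hwl, hE1, hE2⟩, hwu⟩ := hw
        have hwlen : w.length = l.length := hwl.length_eq
        have hsplit : u ++ w.drop a = w := by rw [← hwu, List.take_append_drop]
        rw [Finset.mem_coe, Finset.mem_filter, mem_P]
        refine ⟨?_, ?_, ?_⟩
        · have : u ++ w.drop a ~ u ++ w0.drop a := by
            rw [hsplit]
            have h0 : u ++ w0.drop a = w0 := by rw [← hw0u, List.take_append_drop]
            rw [h0]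
            exact hwl.trans hw0.symm
          exact (List.perm_append_left_iff u).mp this
        · rw [hsplit]; exact hE1
        · rw [List.rotate_eq_drop_append_take (by omega), hwu] at hE2
          exact hE2
      · intro x hx y hy hxy
        rw [Finset.mem_coe, Finset.mem_filter] at hx hy
        have h1 : x = x.take a ++ x.drop a := (List.take_append_drop a x).symm
        have h2 : y = y.take a ++ y.drop a := (List.take_append_drop a y).symm
        rw [h1, h2, hx.2, hy.2]
        simpa using hxy
    have hqq : q * q = 4 * m ^ 2 := by rw [hq]; ring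
    rw [← hqq]
    exact e1.trans (hu.trans (Nat.mul_le_mul_left _ e2))

/-- explicit threshold -/
def N : ℕ → ℕ → ℕ
  | 0, _ => 1
  | r + 1, m => N r (4 * m ^ 2) + 2 * m

theorem dens (r : ℕ) : ∀ (m : ℕ), 1 ≤ m → ∀ (l : List α), N r m ≤ l.length →
    ∀ (E : List α → Prop) [DecidablePred E], (P l).card ≤ m * ((P l).filter E).card →
    ∃ xs : List (List α), xs.length = r + 1 ∧ (∀ x ∈ xs, x ≠ []) ∧ xs.flatten ~ l ∧
      ∀ ys, EndBuilt xs ys → E ys.flatten := by
  induction r with
  | zero =>
    intro m hm l hl E _ hE
    have hPne : (P l).Nonempty := ⟨l, mem_P.mpr (List.Perm.refl l)⟩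
    have hpos : 0 < ((P l).filter E).card := by
      rcases Nat.eq_zero_or_pos ((P l).filter E).card with h | h
      · rw [h, mul_zero] at hE
        exact absurd (Finset.card_eq_zero.mp (Nat.le_zero.mp hE)) hPne.ne_empty
      · exact h
    obtain ⟨w, hw⟩ := Finset.card_pos.mp hpos
    rw [Finset.mem_filter, mem_P] at hw
    have hlen := hw.1.length_eq
    refine ⟨[w], by simp, ?_, ?_, ?_⟩
    · intro x hx
      rw [List.mem_singleton] at hx
      rw [hx]
      intro h
      rw [h] at hlen
      simp [N] at hl hlen
      omega
    · simpa using hw.1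
    · intro ys hys
      cases hys with
      | left _ h => cases h; simpa using hw.2
      | right _ h => cases h; simpa using hw.2
  | succ r ih =>
    intro m hm l hl E _ hE
    have hl' : N r (4 * m ^ 2) + 2 * m ≤ l.length := hl
    obtain ⟨u, l', hu, hperm, hulen, hD⟩ := step l E m hm (by omega) hE
    have hlen := hperm.length_eq
    rw [List.length_append] at hlen
    obtain ⟨xs, h1, h2, h3, h4⟩ := ih (4 * m ^ 2) (by nlinarith) l' (by omega)
      (fun v => E (u ++ v) ∧ E (v ++ u)) hD
    refine ⟨u :: xs, by simp [h1], ?_, ?_, ?_⟩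
    · intro x hx
      rcases List.mem_cons.mp hx with rfl | hx
      · exact hu
      · exact h2 x hx
    · rw [List.flatten_cons]
      exact (h3.append_left u).trans hperm
    · intro ys hys
      cases hys with
      | left _ h =>
        rw [List.flatten_cons]
        exact (h4 _ h).1
      | right _ h =>
        rw [List.flatten_append]
        simpa using (h4 _ h).2

end

end Pool.Agent.R7.SrCopies
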